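import Mathlib

/-!
# The mixed cubic sum of the entries of Shapiro's Catalan triangle

Proof. Let `b(n,k) = C(2n,n+k)` and, for a fixed `n`, `S(m) = ∑_k k^3 b(n,k)^2 b(m,k)`. The Gosper-Zeilberger
algorithm gives
`(n+m+1)^2 (n+2m) / ((2m+2)(2m+1)) S(m+1) - (n+2m+2) S(m) = n^3 C(2n,n)^2 C(2m,m) / 2`
for all `m`, because `k^3 b(n,k)^2 b(m,k)` telescopes up to the term at `k = 0`. This first order
recurrence gives `S(m)` with the sum `T(m) = ∑_{j<m} C(n+j,n) C(n+j,n-1)`, which is the formula for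
`m ≤ n`. A second telescoping sum shows
`n C(2n,n) T(m) = m C(n+m,n) ∑_{j<n} C(m+j,m) C(n+j,n-1)`, which gives the formula for `n ≤ m`.
-/

set_option autoImplicit false

namespace Pool.Agent.Results.MP_651eca_nt.MixedCubicSum

open Finset

/-- The entries `B_{n,k} = (k/n) C(2n, n-k)` of Shapiro's Catalan triangle, `1 ≤ k ≤ n`. -/
def B (n k : ℕ) : ℚ := (k : ℚ) / n * ((2 * n).choose (n - k) : ℚ)

/-- `b(n,k) = C(2n,n+k)` -/
def b (n k : ℕ) : ℚ := ((2 * n).choose (n + k) : ℚ)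

theorem b_succ (n k : ℕ) : b n (k + 1) * (n + k + 1) = b n k * ((n : ℚ) - k) := by
  unfold b
  rcases Nat.lt_or_ge n k with h | h
  · rw [Nat.choose_eq_zero_of_lt (by omega), Nat.choose_eq_zero_of_lt (by omega)]
    simp
  · have h1 := Nat.choose_succ_right_eq (2 * n) (n + k)
    have h2 : 2 * n - (n + k) = n - k := by omega
    rw [h2] at h1
    have h3 : (((2 * n).choose (n + k + 1) * (n + k + 1) : ℕ) : ℚ) =
        (((2 * n).choose (n + k) * (n - k) : ℕ) : ℚ) := by exact_mod_cast h1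
    rw [Nat.cast_mul, Nat.cast_mul, Nat.cast_sub h] at h3
    push_cast at h3
    rw [← add_assoc]
    exact h3

theorem b_up (m k : ℕ) : b (m + 1) (k + 1) * ((m + k + 2) * (m + k + 1)) =
    (2 * m + 2) * (2 * m + 1) * b m k := by
  unfold b
  have h1 := Nat.add_one_mul_choose_eq (2 * m + 1) (m + k + 1)
  have h2 := Nat.add_one_mul_choose_eq (2 * m) (m + k)
  have h1' : ((2 * m + 1 + 1 : ℕ) : ℚ) * ((2 * m + 1).choose (m + k + 1) : ℚ) =
      ((2 * m + 1 + 1).choose (m + k + 1 + 1) : ℚ) * ((m + k + 1 + 1 : ℕ) : ℚ) := by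
    exact_mod_cast h1
  have h2' : ((2 * m + 1 : ℕ) : ℚ) * ((2 * m).choose (m + k) : ℚ) =
      ((2 * m + 1).choose (m + k + 1) : ℚ) * ((m + k + 1 : ℕ) : ℚ) := by
    exact_mod_cast h2
  rw [show 2 * (m + 1) = 2 * m + 1 + 1 by ring, show m + 1 + (k + 1) = m + k + 1 + 1 by ring]
  push_cast at h1' h2' ⊢
  linear_combination (-(m + k + 1 : ℚ)) * h1' - (2 * (m : ℚ) + 2) * h2'

/-- the polynomial of the certificate -/
def Xp (n m : ℕ) (k : ℚ) : ℚ := n * (m + 1) + (n + 2 * m + 2) * (k * (k + 1))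

/-- the certificate -/
def G (n m k : ℕ) : ℚ := ((n : ℚ) - k) ^ 2 * Xp n m k * b n k ^ 2 * b m k / (m + 1 + k)

theorem tele (n m K : ℕ) :
    ∑ k ∈ range K, (((n : ℚ) + m + 1) ^ 2 * (n + 2 * m) / ((2 * m + 2) * (2 * m + 1)) *
        (((k : ℚ) + 1) ^ 3 * b n (k + 1) ^ 2 * b (m + 1) (k + 1)) -
      (n + 2 * m + 2) * (((k : ℚ) + 1) ^ 3 * b n (k + 1) ^ 2 * b m (k + 1))) =
    1 / 2 * (G n m 0 - G n m K) := by
  induction K with
  | zero => simp
  | succ K ih =>
    rw [sum_range_succ, ih]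
    have h0 : ((m : ℚ) + K + 1) ≠ 0 := by positivity
    have h1 : ((n : ℚ) + K + 1) ≠ 0 := by positivity
    have h2 : ((m : ℚ) + K + 2) ≠ 0 := by positivity
    have h3 : (2 * (m : ℚ) + 2) ≠ 0 := by positivity
    have h4 : (2 * (m : ℚ) + 1) ≠ 0 := by positivity
    have e1 : b n (K + 1) = b n K * ((n : ℚ) - K) / (n + K + 1) := by
      rw [eq_div_iff h1]
      exact b_succ n K
    have e2 : b m (K + 1) = b m K * ((m : ℚ) - K) / (m + K + 1) := by
      rw [eq_div_iff h0]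
      exact b_succ m K
    have e3 : b (m + 1) (K + 1) = (2 * m + 2) * (2 * m + 1) * b m K / ((m + K + 2) * (m + K + 1)) := by
      rw [eq_div_iff (mul_ne_zero h2 h0)]
      exact b_up m K
    unfold G Xp
    rw [e1, e2, e3]
    push_cast
    have h5 : ((m : ℚ) + 1 + (K + 1)) ≠ 0 := by positivity
    have h6 : ((m : ℚ) + 1 + K) ≠ 0 := by positivity
    field_simp
    ring

/-- `S(m) = ∑ k^3 b(n,k)^2 b(m,k)` -/
def S (n m : ℕ) : ℚ := ∑ k ∈ range n, ((k : ℚ) + 1) ^ 3 * b n (k + 1) ^ 2 * b m (k + 1)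

theorem S_rec (n m : ℕ) : ((n : ℚ) + m + 1) ^ 2 * (n + 2 * m) / ((2 * m + 2) * (2 * m + 1)) * S n (m + 1) -
    (n + 2 * m + 2) * S n m = 1 / 2 * n ^ 3 * b n 0 ^ 2 * b m 0 := by
  have h := tele n m n
  rw [sum_sub_distrib, ← mul_sum, ← mul_sum] at h
  have e : G n m n = 0 := by simp [G]
  have e0 : G n m 0 = n ^ 3 * b n 0 ^ 2 * b m 0 := by
    have : ((m : ℚ) + 1) ≠ 0 := by positivity
    unfold G Xp
    push_cast
    rw [add_zero]
    field_simp
    ring
  rw [e, e0] at h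
  unfold S
  rw [h]
  ring

/-- `T(m) = ∑_{j<m} C(n+j,n) C(n+j,n-1)` -/
def T (n m : ℕ) : ℚ := ∑ j ∈ range m, ((n + j).choose n : ℚ) * ((n + j).choose (n - 1) : ℚ)

theorem choose_pred (n m : ℕ) (hn : 1 ≤ n) : ((n + m).choose (n - 1) : ℚ) * (m + 1) =
    n * ((n + m).choose n : ℚ) := by
  obtain ⟨l, rfl⟩ : ∃ l, n = l + 1 := ⟨n - 1, by omega⟩
  have h := Nat.choose_succ_right_eq (l + 1 + m) l
  have h2 : l + 1 + m - l = m + 1 := by omega
  rw [h2] at h
  have h3 : (((l + 1 + m).choose (l + 1) : ℚ)) * (l + 1) = ((l + 1 + m).choose l : ℚ) * (m + 1) := by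
    exact_mod_cast h
  rw [Nat.add_sub_cancel]
  push_cast
  linear_combination -h3

theorem choose_add_succ (n m : ℕ) : ((n + (m + 1)).choose n : ℚ) * (m + 1) =
    (n + m + 1) * ((n + m).choose n : ℚ) := by
  have h := Nat.add_one_mul_choose_eq (n + m) m
  have h1 : (n + (m + 1)).choose n = (n + m + 1).choose (m + 1) :=
    Nat.choose_symm_of_eq_add (by omega)
  have h2 : (n + m).choose n = (n + m).choose m := Nat.choose_symm_of_eq_add (by omega)
  have h3 : ((n + m + 1 : ℕ) : ℚ) * ((n + m).choose m : ℚ) =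
      ((n + m + 1).choose (m + 1) : ℚ) * ((m + 1 : ℕ) : ℚ) := by exact_mod_cast h
  rw [h1, h2]
  push_cast at h3 ⊢
  linear_combination -h3

theorem cpos (n m : ℕ) : ((n + m).choose n : ℚ) ≠ 0 := by
  have : 0 < (n + m).choose n := Nat.choose_pos (by omega)
  positivity

theorem b_zero_succ (m : ℕ) : b (m + 1) 0 * (m + 1) ^ 2 = (2 * m + 2) * (2 * m + 1) * b m 0 := by
  have h1 := b_up m 0
  have h2 := b_succ (m + 1) 0
  push_cast at h1 h2
  have h0 : ((m : ℚ) + 2) ≠ 0 := by positivity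
  have h3 : ((m : ℚ) + 1) ≠ 0 := by positivity
  simp only [add_zero, sub_zero] at h1 h2
  linear_combination (-(m + 1 : ℚ)) * h2 + h1

theorem S_zero (n : ℕ) : S n 0 = 0 := by
  unfold S
  refine sum_eq_zero fun k _ => ?_
  have : b 0 (k + 1) = 0 := by
    unfold b
    rw [Nat.choose_eq_zero_of_lt (by omega)]
    simp
  rw [this, mul_zero]

theorem S_eq (n m : ℕ) (hn : 1 ≤ n) : S n m * ((n + m).choose n : ℚ) ^ 2 = 1 / 2 * n ^ 2 * b n 0 ^ 2 * b m 0 *
    (m * ((n + m).choose n : ℚ) ^ 2 - (n + 2 * m) * T n m) := by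
  induction m with
  | zero => simp [S_zero, T]
  | succ m ih =>
    have h1 := S_rec n m
    have hc := choose_add_succ n m
    have hp := choose_pred n m hn
    have hb := b_zero_succ m
    have hT : T n (m + 1) = T n m + ((n + m).choose n : ℚ) * ((n + m).choose (n - 1) : ℚ) := by
      unfold T
      rw [sum_range_succ]
    have c0 := cpos n m
    have hn0 : (0 : ℚ) < n := by exact_mod_cast hn
    have k1 : ((m : ℚ) + 1) ≠ 0 := by positivity
    have k2 : ((n : ℚ) + m + 1) ≠ 0 := by positivity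
    have k3 : ((n : ℚ) + 2 * m) ≠ 0 := by positivity
    have k4 : (2 * (m : ℚ) + 2) ≠ 0 := by positivity
    have k5 : (2 * (m : ℚ) + 1) ≠ 0 := by positivity
    set c : ℚ := ((n + m).choose n : ℚ) with hcd
    have e1 : ((n + (m + 1)).choose n : ℚ) = (n + m + 1) * c / (m + 1) := by
      rw [eq_div_iff k1]; exact hc
    have e2 : ((n + m).choose (n - 1) : ℚ) = n * c / (m + 1) := by
      rw [eq_div_iff k1]; exact hp
    have e3 : b (m + 1) 0 = (2 * m + 2) * (2 * m + 1) * b m 0 / (m + 1) ^ 2 := by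
      rw [eq_div_iff (pow_ne_zero 2 k1)]; exact hb
    have e4 : S n m = 1 / 2 * n ^ 2 * b n 0 ^ 2 * b m 0 * (m * c ^ 2 - (n + 2 * m) * T n m) / c ^ 2 := by
      rw [eq_div_iff (pow_ne_zero 2 c0)]; exact ih
    have e5 : S n (m + 1) = (1 / 2 * n ^ 3 * b n 0 ^ 2 * b m 0 + (n + 2 * m + 2) * S n m) *
        ((2 * m + 2) * (2 * m + 1)) / (((n : ℚ) + m + 1) ^ 2 * (n + 2 * m)) := by
      rw [← h1]
      field_simp
      ring
    rw [e5, e4, hT, e1, e2, e3]
    push_cast
    field_simp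
    ring

/-- `P(m) = ∑_{j<n} C(m+j,m) C(n+j,n-1)` -/
def P (n m : ℕ) : ℚ := ∑ j ∈ range n, ((m + j).choose m : ℚ) * ((n + j).choose (n - 1) : ℚ)

theorem choose_shift (n j : ℕ) (hn : 1 ≤ n) : ((n + (j + 1)).choose (n - 1) : ℚ) * (j + 2) =
    (n + j + 1) * ((n + j).choose (n - 1) : ℚ) := by
  have h1 := choose_pred n (j + 1) hn
  have h2 := choose_pred n j hn
  have h3 := choose_add_succ n j
  have hn0 : (n : ℚ) ≠ 0 := by
    have : (0 : ℚ) < n := by exact_mod_cast hn
    exact this.ne'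
  have k1 : ((j : ℚ) + 1) ≠ 0 := by positivity
  apply mul_left_cancel₀ k1
  push_cast at h1
  linear_combination (j + 1 : ℚ) * h1 - (n + j + 1 : ℚ) * h2 + n * h3

theorem P_tele (n m K : ℕ) (hn : 1 ≤ n) :
    ∑ j ∈ range K, ((n + j).choose (n - 1) : ℚ) * ((m + 1) * ((n + (m + 1)).choose n : ℚ) *
      ((m + 1 + j).choose (m + 1) : ℚ) - m * ((n + m).choose n : ℚ) * ((m + j).choose m : ℚ)) =
    ((n + m).choose n : ℚ) * (K * (K + 1) / (m + 1) * ((n + K).choose (n - 1) : ℚ) *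
      ((m + K).choose m : ℚ)) := by
  induction K with
  | zero => simp
  | succ K ih =>
    rw [sum_range_succ, ih]
    have k1 : ((m : ℚ) + 1) ≠ 0 := by positivity
    have k2 : ((K : ℚ) + 1) ≠ 0 := by positivity
    have k3 : ((K : ℚ) + 2) ≠ 0 := by positivity
    have e1 : ((n + (m + 1)).choose n : ℚ) = (n + m + 1) * ((n + m).choose n : ℚ) / (m + 1) := by
      rw [eq_div_iff k1]; exact choose_add_succ n m
    have e2 : ((m + (K + 1)).choose m : ℚ) = (m + K + 1) * ((m + K).choose m : ℚ) / (K + 1) := by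
      rw [eq_div_iff k2]; exact choose_add_succ m K
    have e3 : ((n + (K + 1)).choose (n - 1) : ℚ) = (n + K + 1) * ((n + K).choose (n - 1) : ℚ) / (K + 2) := by
      rw [eq_div_iff k3]; exact choose_shift n K hn
    have e4 : ((m + 1 + K).choose (m + 1) : ℚ) = (m + K + 1) * ((m + K).choose m : ℚ) / (m + 1) := by
      rw [eq_div_iff k1]
      have h := Nat.add_one_mul_choose_eq (m + K) m
      have h3 : ((m + K + 1 : ℕ) : ℚ) * ((m + K).choose m : ℚ) =
          ((m + K + 1).choose (m + 1) : ℚ) * ((m + 1 : ℕ) : ℚ) := by exact_mod_cast h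
      rw [show m + 1 + K = m + K + 1 by omega]
      push_cast at h3 ⊢
      linear_combination -h3
    rw [e1, e2, e3, e4]
    push_cast
    field_simp
    ring

theorem TP (n m : ℕ) (hn : 1 ≤ n) : n * b n 0 * T n m = m * ((n + m).choose n : ℚ) * P n m := by
  induction m with
  | zero => simp [T]
  | succ m ih =>
    have hT : T n (m + 1) = T n m + ((n + m).choose n : ℚ) * ((n + m).choose (n - 1) : ℚ) := by
      unfold T
      rw [sum_range_succ]
    have h := P_tele n m n hn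
    have h2 : ∑ j ∈ range n, ((n + j).choose (n - 1) : ℚ) * ((m + 1) * ((n + (m + 1)).choose n : ℚ) *
      ((m + 1 + j).choose (m + 1) : ℚ) - m * ((n + m).choose n : ℚ) * ((m + j).choose m : ℚ)) =
      (m + 1) * ((n + (m + 1)).choose n : ℚ) * P n (m + 1) - m * ((n + m).choose n : ℚ) * P n m := by
      unfold P
      rw [mul_sum, mul_sum, ← sum_sub_distrib]
      refine sum_congr rfl fun j _ => ?_
      ring
    rw [h2] at h
    have k1 : ((m : ℚ) + 1) ≠ 0 := by positivity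
    have k2 : ((n : ℚ) + 1) ≠ 0 := by positivity
    have e1 : ((n + m).choose (n - 1) : ℚ) = n * ((n + m).choose n : ℚ) / (m + 1) := by
      rw [eq_div_iff k1]; exact choose_pred n m hn
    have e2 : ((n + n).choose (n - 1) : ℚ) = n * b n 0 / (n + 1) := by
      rw [eq_div_iff k2, choose_pred n n hn]
      unfold b
      rw [← two_mul, add_zero]
    have e3 : ((m + n).choose m : ℚ) = ((n + m).choose n : ℚ) := by
      rw [add_comm m n, Nat.choose_symm_add]
    rw [e2, e3] at h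
    rw [hT, mul_add, ih, e1]
    push_cast
    have h5 : (m + 1) * ((n + (m + 1)).choose n : ℚ) * P n (m + 1) = m * ((n + m).choose n : ℚ) * P n m +
        ((n + m).choose n : ℚ) * (n * (n + 1) / (m + 1) * (n * b n 0 / (n + 1)) *
        ((n + m).choose n : ℚ)) := by
      linear_combination h
    rw [h5]
    field_simp

theorem B_eq (n k : ℕ) (hk : k ≤ n) : B n k = (k : ℚ) / n * b n k := by
  unfold B b
  rw [show (2 * n).choose (n - k) = (2 * n).choose (n + k) from
    Nat.choose_symm_of_eq_add (by omega)]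

theorem lhs_eq (n m : ℕ) (hn : 1 ≤ n) (hm : 1 ≤ m) :
    ∑ k ∈ Icc 1 (min n m), B n k ^ 2 * B m k = S n m / (n ^ 2 * m) := by
  have hn0 : (n : ℚ) ≠ 0 := by exact_mod_cast (by omega : n ≠ 0)
  have hm0 : (m : ℚ) ≠ 0 := by exact_mod_cast (by omega : m ≠ 0)
  have h1 : ∑ k ∈ Icc 1 (min n m), B n k ^ 2 * B m k =
      ∑ k ∈ range (min n m), B n (k + 1) ^ 2 * B m (k + 1) := by
    rw [range_eq_Ico, sum_Ico_add' (fun k => B n k ^ 2 * B m k) 0 (min n m) 1]
    rfl
  rw [h1, eq_div_iff (by positivity), sum_mul]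
  have h2 : S n m = ∑ k ∈ range (min n m), ((k : ℚ) + 1) ^ 3 * b n (k + 1) ^ 2 * b m (k + 1) := by
    unfold S
    symm
    apply sum_subset (range_subset_range.2 (min_le_left n m))
    intro k hk hk'
    rw [mem_range] at hk hk'
    have : b m (k + 1) = 0 := by
      unfold b
      rw [Nat.choose_eq_zero_of_lt (by omega)]
      simp
    rw [this, mul_zero]
  rw [h2]
  refine sum_congr rfl fun k hk => ?_
  rw [mem_range] at hk
  rw [B_eq n (k + 1) (by omega), B_eq m (k + 1) (by omega)]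
  push_cast
  field_simp

/-- **The identity of the question**, for all positive integers `n` and `m`. -/
theorem result (n m : ℕ) (hn : 1 ≤ n) (hm : 1 ≤ m) :
    ∑ k ∈ Icc 1 (min n m), B n k ^ 2 * B m k =
      1 / 2 * ((2 * n).choose n : ℚ) ^ 2 * ((2 * m).choose m : ℚ) *
        (1 - ((n : ℚ) + 2 * m) / (min n m : ℕ) * (((n + m).choose n : ℚ))⁻¹ *
          (((n + min n m).choose n : ℚ))⁻¹ *
          ∑ j ∈ range (min n m), ((max n m + j).choose (max n m) : ℚ) *
            ((n + j).choose (n - 1) : ℚ)) := by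
  have hn0 : (n : ℚ) ≠ 0 := by exact_mod_cast (by omega : n ≠ 0)
  have hm0 : (m : ℚ) ≠ 0 := by exact_mod_cast (by omega : m ≠ 0)
  have hb : ∀ l : ℕ, b l 0 = ((2 * l).choose l : ℚ) := fun l => by unfold b; rw [add_zero]
  have c0 := cpos n m
  have hS := S_eq n m hn
  rw [hb, hb] at hS
  have e4 : S n m = 1 / 2 * n ^ 2 * ((2 * n).choose n : ℚ) ^ 2 * ((2 * m).choose m : ℚ) *
      (m * ((n + m).choose n : ℚ) ^ 2 - (n + 2 * m) * T n m) / ((n + m).choose n : ℚ) ^ 2 := by
    rw [eq_div_iff (pow_ne_zero 2 c0)]; exact hS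
  rw [lhs_eq n m hn hm, e4]
  rcases le_total n m with h | h
  · rw [min_eq_left h, max_eq_right h]
    have h1 := TP n m hn
    rw [hb] at h1
    have d0 : ((2 * n).choose n : ℚ) ≠ 0 := by
      have := cpos n n
      rwa [← two_mul] at this
    have e5 : T n m = m * ((n + m).choose n : ℚ) * P n m / (n * ((2 * n).choose n : ℚ)) := by
      rw [eq_div_iff (mul_ne_zero hn0 d0)]
      linear_combination h1
    rw [e5, ← two_mul]
    unfold P
    field_simp
  · rw [min_eq_right h, max_eq_left h]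
    unfold T
    field_simp

end Pool.Agent.Results.MP_651eca_nt.MixedCubicSum
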